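import Pool.Agent.H626Z.RSub.Main
import Pool.Agent.H626Z.RSub.Pisot

set_option autoImplicit false

namespace Pool.Agent.Results.MP_d44141_an.ARandomFib

open Pool.Agent.H626Z.RSub

/-- The random Fibonacci substitution is compatible and irreducible Pisot, and its subshift has a
minimal subsystem that is not a pure point system. -/
theorem result : fib.Compatible ∧ fib.IrreduciblePisot ∧
    ∃ Y : Set (ℤ → Bool), IsMinimalSubsystem fib.subshift Y ∧ ¬ IsPurePoint Y :=
  ⟨fib_compatible, fib_pisot, exists_not_purePoint⟩

end Pool.Agent.Results.MP_d44141_an.ARandomFib
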